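import Mathlib

/-!
# Project FD (MP_ef6a16_nt): the first case over number fields for almost all primes in a class

Definitions only.  See notes 3561 (helper42) and 3560 (helper56).

* `PE m` : integer polynomials with `(t d/dt)^m 1/(1-t) = PE m (t) / (1-t)^(m+1)`;
* `LL m t = PE m (t) / (1-t)^(m+1)`;
* `Inv T` : the family `T` is stable under inversion;
* `SS p i = ∑_{j ≤ (p-1)/2} j^(-i)` in `ZMod p`, `Gap p r e` : `SS p i = 0` for all odd `r < i < e`;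
* `gpol p = ∏_{j ≤ (p-1)/2} (1 + X/j)`, `Phi p I = ∏_{n ∈ I} gpol (n X)`;
* `Par` : the parameters; `TT`, `UU`, `Bi`, `cn`, `entry` : the columns of the linear system;
* `An`, `Bn` : numerator and denominator of `Phi(x+1)/Phi(x)`.
-/

namespace Pool.Agent.H42.FD

open Polynomial Finset

/-- `∑ a^m X^a = PE m / (1-X)^(m+1)` -/
noncomputable def PE : ℕ → ℤ[X]
  | 0 => 1
  | m + 1 => X * ((1 - X) * derivative (PE m) + C ((m : ℤ) + 1) * PE m)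

/-- `L_m(t) = (t d/dt)^m 1/(1-t)` -/
noncomputable def LL {F : Type*} [Field F] (m : ℕ) (t : F) : F := aeval t (PE m) / (1 - t) ^ (m + 1)

/-- the family is stable under inversion (with multiplicities) -/
def Inv {F : Type*} [Field F] {n : ℕ} (T : Fin n → F) : Prop :=
  ∃ σ : Equiv.Perm (Fin n), ∀ v, T (σ v) * T v = 1

/-- `∑_{j ≤ (p-1)/2} j^(-i)` modulo `p` -/
def SS (p i : ℕ) : ZMod p := ∑ j ∈ Icc 1 ((p - 1) / 2), ((j : ZMod p)⁻¹) ^ i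

/-- all the sums with odd index in `(r, e)` vanish -/
def Gap (p r e : ℕ) : Prop := ∀ i, Odd i → r < i → i < e → SS p i = 0

/-- the primes for which there is a bad family: all Kummer relations hold, but the family is not
stable under inversion -/
def BadP (n p : ℕ) : Prop := p.Prime ∧ ∃ (Ω : Type) (_ : Field Ω) (_ : CharP Ω p) (T : Fin n → Ω),
  (∀ v, T v ≠ 0) ∧ (∀ v, T v ≠ 1) ∧ ¬ Inv T ∧
    ∀ m, Even m → 2 ≤ m → m + 3 ≤ p → SS p (m + 1) ≠ 0 → ∑ v, LL m (T v) = 0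

/-- `g(x) = ∏_{j ≤ (p-1)/2} (1 + x/j)` -/
noncomputable def gpol (p : ℕ) : (ZMod p)[X] :=
  ∏ j ∈ Icc 1 ((p - 1) / 2), (1 + C ((j : ZMod p)⁻¹) * X)

/-- `Φ_I(x) = ∏_{n ∈ I} g(n x)` -/
noncomputable def Phi (p : ℕ) (I : Finset ℕ) : (ZMod p)[X] :=
  ∏ n ∈ I, (gpol p).comp (C (n : ZMod p) * X)

/-- the parameters: `FF` a family of subsets of `[1, B]`, `e` jets, `N1` nodes for Siegel's lemma,
`N` nodes in all, `Y` the degree bound and block length -/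
structure Par where
  FF : Finset (Finset ℕ)
  B : ℕ
  e : ℕ
  N1 : ℕ
  N : ℕ
  Y : ℕ

namespace Par

/-- validity of the parameters -/
structure Valid (q : Par) : Prop where
  hI : ∀ I ∈ q.FF, I ⊆ Icc 1 q.B
  hB : 1 ≤ q.B
  he : 1 ≤ q.e
  hN1 : 1 ≤ q.N1
  hY : 1 ≤ q.Y
  hYN : q.Y ≤ q.N
  hN : q.N = 3 * q.N1
  /-- twice as many unknowns as equations -/
  hS : q.FF.card * q.Y = 2 * (q.e * q.N1)
  /-- the zero estimate -/
  hz : q.FF.card * (q.Y + q.FF.card * q.B ^ 2) < q.e * (q.N - q.FF.card)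

end Par

/-- `T^I_a(x)` -/
noncomputable def TT (q : Par) (I : Finset ℕ) (a : ℕ) : ℤ[X] :=
  ∏ n ∈ Icc 1 q.B, ((∏ i ∈ range (n * a),
      (C (2 * n : ℤ) * X + C (2 * i + (if n ∈ I then 1 else 2) : ℤ))) *
    ∏ i ∈ range (n * (q.N - a)), (C (n : ℤ) * X - C (i + 1 : ℤ)))

/-- `U_a(x)`, with `Φ_I(a + x) U_a(x) = Φ_I(x) T^I_a(x)` -/
noncomputable def UU (q : Par) (a : ℕ) : ℤ[X] :=
  ∏ n ∈ Icc 1 q.B, ((∏ i ∈ range (n * a), (C (2 * n : ℤ) * X + C (2 * i + 2 : ℤ))) *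
    ∏ i ∈ range (n * (q.N - a)), (C (n : ℤ) * X - C (i + 1 : ℤ)))

/-- `i! binom(X, i)` -/
noncomputable def Bi (i : ℕ) : ℤ[X] := ∏ c ∈ range i, (X - C (c : ℤ))

/-- block factorial -/
def blk (Y A : ℕ) : ℕ := Y.factorial ^ (A / Y) * (A % Y).factorial

/-- the normalisation of the node `a` -/
noncomputable def cn (q : Par) (a : ℕ) : ℕ :=
  ∏ n ∈ Icc 1 q.B, (blk q.Y (n * a) * blk q.Y (n * (q.N - a)))

/-- the entries: `[x^s] binom(a + x, i) T^I_a(x) / c_a` -/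
noncomputable def entry (q : Par) (I : Finset ℕ) (i a s : ℕ) : ℚ :=
  ((((Bi i).comp (X + C (a : ℤ)) * TT q I a).coeff s : ℤ) : ℚ) /
    ((i.factorial : ℚ) * (cn q a : ℚ))

/-- the coefficient of `x^s` at the node `a` of the combination with coefficients `t` -/
noncomputable def val (q : Par) (t : Finset ℕ → ℕ → ℤ) (a s : ℕ) : ℚ :=
  ∑ I ∈ q.FF, ∑ i ∈ range q.Y, (t I i : ℚ) * entry q I i a s

/-- numerator of `Φ_I(x+1)/Φ_I(x)` -/
noncomputable def An (I : Finset ℕ) : ℚ[X] :=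
  ∏ n ∈ I, ∏ i ∈ range n, (C (2 * n : ℚ) * X + C (2 * i + 1 : ℚ))

/-- denominator of `Φ_I(x+1)/Φ_I(x)` -/
noncomputable def Bn (I : Finset ℕ) : ℚ[X] :=
  ∏ n ∈ I, ∏ i ∈ range n, (C (2 * n : ℚ) * X + C (2 * i + 2 : ℚ))

/-- `lcm(1, …, Y)` -/
def Lam (Y : ℕ) : ℕ := (Icc 1 Y).lcm id

/-- the common denominator -/
def Dq (q : Par) : ℕ := Lam q.Y ^ q.e * 2 ^ (q.B ^ 2 * q.N)

/-- bound for the entries -/
noncomputable def Hq (q : Par) : ℝ :=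
  2 ^ (2 * q.N) * 2 ^ (2 * q.B ^ 2) * 2 ^ (2 * q.B ^ 2 * q.N) *
    ((q.B * q.N / q.Y + 1 : ℕ) : ℝ) ^ (q.B ^ 2 * q.N)

/-- the parameters used: `B = r^3`, `e = r^13`, `N1 = 2^r M`, `N = 3 N1`, `Y = 2 r^13 M` -/
def qpar (r M : ℕ) (FF : Finset (Finset ℕ)) : Par :=
  ⟨FF, r ^ 3, r ^ 13, 2 ^ r * M, 3 * (2 ^ r * M), 2 * r ^ 13 * M⟩

/-- a family of `2^r` subsets of `[1, r^3]` with the same power sums of exponents `1, …, r` -/
structure Fam (r : ℕ) (FF : Finset (Finset ℕ)) : Prop where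
  card : FF.card = 2 ^ r
  sub : ∀ I ∈ FF, I ⊆ Icc 1 (r ^ 3)
  pow : ∀ I ∈ FF, ∀ J ∈ FF, ∀ i, 1 ≤ i → i ≤ r → ∑ n ∈ I, n ^ i = ∑ n ∈ J, n ^ i

end Pool.Agent.H42.FD
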