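import Pool.Agent.H22.WQ.W0
import Pool.Agent.H52.FD.Place

/-!
# Project FD: quadratic fields
-/

open NumberField IsDedekindDomain

namespace Pool.Agent.H42.FD.Qd

open Pool.Agent.H22.WQ

/-- a quadratic field is `ℚ(√d)` -/
theorem exists_sqrt (K : Type*) [Field K] [NumberField K] (hK : Module.finrank ℚ K = 2)
    (hω : ∀ ω : K, ω ^ 2 + ω + 1 ≠ 0) :
    ∃ (d : ℤ) (δ : K), δ ^ 2 = (d : K) ∧ Squarefree d ∧ d ≠ 1 ∧ d ≠ -3 := by
  -- an element outside `ℚ`
  obtain ⟨x, hx⟩ : ∃ x : K, ∀ r : ℚ, x ≠ (r : K) := by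
    by_contra hcon
    push Not at hcon
    have h1 : Module.finrank ℚ K ≤ 1 := by
      refine finrank_le_one (1 : K) fun w => ?_
      obtain ⟨r, hr⟩ := hcon w
      exact ⟨r, by rw [hr, Algebra.smul_def, mul_one, eq_ratCast]⟩
    omega
  -- its minimal polynomial
  have hint : IsIntegral ℚ x := Algebra.IsIntegral.isIntegral x
  have hdeg : (minpoly ℚ x).natDegree = 2 := by
    have h1 : (minpoly ℚ x).natDegree ≤ Module.finrank ℚ K := minpoly.natDegree_le x
    have h2 : 2 ≤ (minpoly ℚ x).natDegree := by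
      rw [minpoly.two_le_natDegree_iff hint]
      rintro ⟨r, hr⟩
      exact hx r (by rw [← hr, eq_ratCast])
    omega
  set P := minpoly ℚ x with hP
  have hmon : P.coeff 2 = 1 := by
    rw [← hdeg]
    exact (minpoly.monic hint).coeff_natDegree
  have hev : x ^ 2 + (P.coeff 1 : K) * x + (P.coeff 0 : K) = 0 := by
    have h1 := minpoly.aeval ℚ x
    rw [← hP, Polynomial.aeval_eq_sum_range, hdeg, Finset.sum_range_succ, Finset.sum_range_succ,
      Finset.sum_range_succ, Finset.sum_range_zero, hmon] at h1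
    simp only [Algebra.smul_def, eq_ratCast, Rat.cast_one] at h1
    linear_combination h1
  set b := P.coeff 1
  set c := P.coeff 0
  set q : ℚ := b ^ 2 - 4 * c with hq
  set y : K := 2 * x + (b : K) with hy
  have hyq : y ^ 2 = (q : K) := by
    rw [hy, hq]
    push_cast
    linear_combination 4 * hev
  have hy' : ∀ r : ℚ, y ≠ (r : K) := by
    intro r hr
    apply hx ((r - b) / 2)
    push_cast
    rw [← hr, hy]
    ring
  -- the integer
  set D : ℤ := q.num * q.den with hD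
  have hden : (q.den : K) ≠ 0 := by exact_mod_cast q.den_nz
  set z : K := y * (q.den : K) with hz
  have hzD : z ^ 2 = (D : K) := by
    have h1 : (q : K) * (q.den : K) = (q.num : K) := by
      have h2 : q * (q.den : ℚ) = (q.num : ℚ) := Rat.mul_den_eq_num q
      exact_mod_cast congrArg (fun t : ℚ => (t : K)) h2
    rw [hz, hD, mul_pow, hyq]
    push_cast
    linear_combination (q.den : K) * h1
  have hz' : ∀ r : ℚ, z ≠ (r : K) := by
    intro r hr
    apply hy' (r / q.den)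
    push_cast
    rw [← hr, hz]
    field_simp
  have hD0 : D ≠ 0 := by
    intro h0
    rw [h0, Int.cast_zero] at hzD
    exact hz' 0 (by rw [Rat.cast_zero]; exact pow_eq_zero_iff (two_ne_zero) |>.1 hzD)
  obtain ⟨a, m, ham, hsq⟩ := Nat.sq_mul_squarefree D.natAbs
  have hm0 : m ≠ 0 := by
    rintro rfl
    apply hD0
    rw [← Int.natAbs_eq_zero, ← ham]
    ring
  have hmK : (m : K) ≠ 0 := by exact_mod_cast hm0
  obtain ⟨d, hd1, hd2⟩ : ∃ d : ℤ, D = (m : ℤ) ^ 2 * d ∧ d.natAbs = a := by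
    rcases Int.natAbs_eq D with h1 | h1
    · refine ⟨a, ?_, by simp⟩
      rw [h1, ← ham]
      push_cast
      ring
    · refine ⟨-a, ?_, by simp⟩
      rw [h1, ← ham]
      push_cast
      ring
  have hdsq : Squarefree d := by
    rw [← Int.squarefree_natAbs, hd2]
    exact hsq
  have hδ : (z / m) ^ 2 = (d : K) := by
    rw [div_pow, hzD, hd1]
    push_cast
    field_simp
  refine ⟨d, z / m, hδ, hdsq, ?_, ?_⟩
  · rintro rfl
    rw [Int.cast_one] at hδ
    have h1 : (z / m - 1) * (z / m + 1) = 0 := by linear_combination hδ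
    rcases mul_eq_zero.1 h1 with h2 | h2
    · refine hz' m ?_
      rw [Rat.cast_natCast]
      field_simp at h2
      linear_combination h2
    · refine hz' (-m) ?_
      rw [Rat.cast_neg, Rat.cast_natCast]
      field_simp at h2
      linear_combination h2
  · rintro rfl
    apply hω ((z / m - 1) / 2)
    have h1 : (z / m) ^ 2 = -3 := by rw [hδ]; norm_num
    linear_combination h1 / 4

section
variable {K : Type*} [Field K] [NumberField K] (hK : Module.finrank ℚ K = 2) {d : ℤ}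
  (hd : Squarefree d) (hd1 : d ≠ 1) {δ : K} (hδ : δ ^ 2 = (d : K)) {p : ℕ} [Fact p.Prime]
include hK hd hd1 hδ

omit hK hd hd1 in
theorem exists_int : ∃ e : 𝓞 K, algebraMap (𝓞 K) K e = δ ∧ e ^ 2 = (d : 𝓞 K) := by
  have h1 : IsIntegral ℤ δ := by
    refine IsIntegral.of_pow (n := 2) (by norm_num) ?_
    rw [hδ]
    exact isIntegral_algebraMap (R := ℤ) (x := d)
  obtain ⟨e, he⟩ := (IsIntegralClosure.isIntegral_iff (A := 𝓞 K) (R := ℤ)).1 h1
  refine ⟨e, he, ?_⟩
  apply RingOfIntegers.ext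
  have h3 : algebraMap (𝓞 K) K (e ^ 2) = algebraMap (𝓞 K) K (d : 𝓞 K) := by
    rw [map_pow, he, hδ, map_intCast]
  exact h3

omit hK hd hd1 hδ in
/-- the order of the residue field -/
theorem card_res (v : HeightOneSpectrum (𝓞 K)) (hv : (p : 𝓞 K) ∈ v.asIdeal) :
    Nat.card (𝓞 K ⧸ v.asIdeal) = p ^ v.asIdeal.inertiaDeg ℤ :=
  (H52FD.prime_data v.asIdeal v.isPrime hv).2.2.2.2.2.symm

omit hK hd hd1 in
/-- `(d / p) = -1`: the residue degrees above `p` are at least `2` -/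
theorem inert_deg (hj : jacobiSym d p = -1) (v : HeightOneSpectrum (𝓞 K))
    (hv : (p : 𝓞 K) ∈ v.asIdeal) : 2 ≤ v.asIdeal.inertiaDeg ℤ := by
  have hp : p.Prime := Fact.out
  obtain ⟨e, he, he2⟩ := exists_int hδ
  obtain ⟨hne, hmax, hfin, hchar, -, hcard⟩ := H52FD.prime_data v.asIdeal v.isPrime hv
  by_contra hcon
  have hf : v.asIdeal.inertiaDeg ℤ ≠ 0 := by
    intro h0
    rw [h0, pow_zero] at hcard
    have h1 := (Ideal.Quotient.nontrivial_iff.2 hmax.ne_top : Nontrivial (𝓞 K ⧸ v.asIdeal))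
    have h2 := Finite.one_lt_card (α := 𝓞 K ⧸ v.asIdeal)
    omega
  have hf1 : v.asIdeal.inertiaDeg ℤ = 1 := by omega
  rw [hf1, pow_one] at hcard
  let _ := ZMod.algebra (𝓞 K ⧸ v.asIdeal) p
  have hinj : Function.Injective (algebraMap (ZMod p) (𝓞 K ⧸ v.asIdeal)) :=
    (RingHom.injective_iff_ker_eq_bot (algebraMap (ZMod p) (𝓞 K ⧸ v.asIdeal))).2 (by
      rcases (RingHom.ker (algebraMap (ZMod p) (𝓞 K ⧸ v.asIdeal))).eq_bot_or_top with h1 | h1
      · exact h1
      · exfalso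
        have h2 : (1 : ZMod p) ∈ RingHom.ker (algebraMap (ZMod p) (𝓞 K ⧸ v.asIdeal)) := by
          rw [h1]; trivial
        rw [RingHom.mem_ker, map_one] at h2
        have h3 := (Ideal.Quotient.nontrivial_iff.2 hmax.ne_top : Nontrivial (𝓞 K ⧸ v.asIdeal))
        exact one_ne_zero h2)
  have hbij : Function.Bijective (algebraMap (ZMod p) (𝓞 K ⧸ v.asIdeal)) :=
    hinj.bijective_of_nat_card_le (by rw [← hcard, Nat.card_zmod])
  obtain ⟨r, hr⟩ := hbij.2 (Ideal.Quotient.mk v.asIdeal e)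
  have h1 : algebraMap (ZMod p) (𝓞 K ⧸ v.asIdeal) (r ^ 2) =
      algebraMap (ZMod p) (𝓞 K ⧸ v.asIdeal) (d : ZMod p) := by
    rw [map_pow, hr, ← map_pow, he2, map_intCast, map_intCast]
  have h2 := hinj h1
  rw [← jacobiSym.legendreSym.to_jacobiSym, legendreSym.eq_neg_one_iff] at hj
  exact hj ⟨r, by rw [← h2, pow_two]⟩

/-- `(d / p) = 1`: the residue degrees above `p` are `1` -/
theorem split_deg (hp2 : p ≠ 2) (hj : jacobiSym d p = 1) (v : HeightOneSpectrum (𝓞 K))
    (hv : (p : 𝓞 K) ∈ v.asIdeal) : v.asIdeal.inertiaDeg ℤ = 1 := by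
  have hp : p.Prime := Fact.out
  obtain ⟨e, he, he2⟩ := exists_int hδ
  obtain ⟨hne, hmax, hfin, hchar, -, hcard⟩ := H52FD.prime_data v.asIdeal v.isPrime hv
  obtain ⟨σ, hσ, hσδ, -⟩ := exists_cj hK d hd hd1 δ hδ
  by_contra hcon
  have hf : v.asIdeal.inertiaDeg ℤ ≠ 0 := by
    intro h0
    rw [h0, pow_zero] at hcard
    have h1 := (Ideal.Quotient.nontrivial_iff.2 hmax.ne_top : Nontrivial (𝓞 K ⧸ v.asIdeal))
    have h2 := Finite.one_lt_card (α := 𝓞 K ⧸ v.asIdeal)
    omega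
  have hp2N : p ^ 2 ∣ Ideal.absNorm v.asIdeal := by
    have h1 : Ideal.absNorm v.asIdeal = p ^ v.asIdeal.inertiaDeg ℤ := by
      rw [hcard, Ideal.absNorm_apply, Submodule.cardQuot_apply]
    rw [h1]
    exact pow_dvd_pow p (by omega)
  -- the norm of `δ - t`
  have hnorm : ∀ t : ℤ, (Algebra.norm ℤ (e - (t : 𝓞 K))).natAbs = (d - t ^ 2).natAbs := by
    intro t
    have h1 : Algebra.norm ℚ (δ - (t : K)) = Algebra.norm ℚ (δ + (t : K)) := by
      have h2 := Algebra.norm_eq_of_algEquiv σ (δ - (t : K))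
      rw [← h2, map_sub, hσδ, map_intCast]
      have h3 : -δ - (t : K) = (-1 : ℚ) • (δ + (t : K)) := by
        rw [Algebra.smul_def, map_neg, map_one]; ring
      rw [h3, Algebra.smul_def, map_mul, Algebra.norm_algebraMap, hK]
      norm_num
    have h2 : Algebra.norm ℚ (δ - (t : K)) ^ 2 = ((d : ℚ) - t ^ 2) ^ 2 := by
      rw [pow_two]
      nth_rewrite 2 [h1]
      rw [← map_mul]
      have h3 : (δ - (t : K)) * (δ + (t : K)) = algebraMap ℚ K ((d : ℚ) - t ^ 2) := by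
        rw [map_sub, map_pow, map_intCast, map_intCast]
        linear_combination hδ
      rw [h3, Algebra.norm_algebraMap, hK]
    have h3 : ((Algebra.norm ℤ (e - (t : 𝓞 K)) : ℤ) : ℚ) = Algebra.norm ℚ (δ - (t : K)) := by
      rw [Algebra.coe_norm_int, ← he]
      simp
    rw [← h3] at h2
    have h4 : (Algebra.norm ℤ (e - (t : 𝓞 K))) ^ 2 = (d - t ^ 2) ^ 2 := by exact_mod_cast h2
    exact Int.natAbs_eq_iff_sq_eq.2 h4
  have hdvd : ∀ t : ℤ, e - (t : 𝓞 K) ∈ v.asIdeal → (p : ℤ) ^ 2 ∣ d - t ^ 2 := by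
    intro t ht
    have h1 : Ideal.absNorm v.asIdeal ∣ Ideal.absNorm (Ideal.span {e - (t : 𝓞 K)}) :=
      Ideal.absNorm_dvd_absNorm_of_le ((Ideal.span_singleton_le_iff_mem _).2 ht)
    rw [Ideal.absNorm_span_singleton, hnorm] at h1
    have h2 := hp2N.trans h1
    have h3 : ((p ^ 2 : ℕ) : ℤ) ∣ d - t ^ 2 := Int.natCast_dvd.2 h2
    exact_mod_cast h3
  -- a square root of `d` modulo `p`
  have hd0 : ((d : ℤ) : ZMod p) ≠ 0 := by
    intro h0
    have h1 := (legendreSym.eq_zero_iff p d).2 h0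
    rw [jacobiSym.legendreSym.to_jacobiSym, hj] at h1
    exact one_ne_zero h1
  have hsq : IsSquare (d : ZMod p) := by
    rw [← jacobiSym.legendreSym.to_jacobiSym] at hj
    exact (legendreSym.eq_one_iff p hd0).1 hj
  obtain ⟨r, hr⟩ := hsq
  obtain ⟨t, rfl⟩ := ZMod.intCast_surjective r
  have hpd : (p : ℤ) ∣ d - t ^ 2 := by
    rw [← ZMod.intCast_zmod_eq_zero_iff_dvd]
    push_cast
    rw [hr]
    ring
  have hmem : (e - (t : 𝓞 K)) * (e + (t : 𝓞 K)) ∈ v.asIdeal := by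
    obtain ⟨k, hk⟩ := hpd
    have h1 : (e - (t : 𝓞 K)) * (e + (t : 𝓞 K)) = (p : 𝓞 K) * (k : 𝓞 K) := by
      have h2 : ((d - t ^ 2 : ℤ) : 𝓞 K) = ((p * k : ℤ) : 𝓞 K) := by rw [hk]
      push_cast at h2
      linear_combination he2 + h2
    rw [h1]
    exact Ideal.mul_mem_right _ _ hv
  have key : ∀ t : ℤ, (p : ℤ) ∣ d - t ^ 2 → ¬ e - (t : 𝓞 K) ∈ v.asIdeal := by
    intro t hpd ht
    have h1 := hdvd t ht
    have h2 := hdvd (t + p) (by
      have : e - ((t + p : ℤ) : 𝓞 K) = (e - (t : 𝓞 K)) - (p : 𝓞 K) := by push_cast; ring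
      rw [this]
      exact sub_mem ht hv)
    have h3 : (p : ℤ) ^ 2 ∣ 2 * t * p := by
      have h4 := dvd_sub h1 h2
      have h5 : d - t ^ 2 - (d - (t + (p : ℤ)) ^ 2) = 2 * t * p + (p : ℤ) ^ 2 := by ring
      rw [h5] at h4
      exact (dvd_add_left (dvd_refl _)).1 h4
    have hpZ : Prime (p : ℤ) := Nat.prime_iff_prime_int.1 hp
    have h4 : (p : ℤ) ∣ 2 * t := by
      rw [pow_two] at h3
      exact Int.dvd_of_mul_dvd_mul_right (Int.natCast_ne_zero.2 hp.ne_zero) h3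
    rcases hpZ.dvd_or_dvd h4 with h5 | h5
    · have h6 : p ∣ 2 := by exact_mod_cast h5
      exact hp2 ((Nat.prime_dvd_prime_iff_eq hp Nat.prime_two).1 h6)
    · apply hd0
      rw [ZMod.intCast_zmod_eq_zero_iff_dvd]
      have h6 : d = (d - t ^ 2) + t * t := by ring
      rw [h6]
      exact dvd_add hpd (Dvd.dvd.mul_left h5 t)
  rcases v.isPrime.mem_or_mem hmem with h1 | h1
  · exact key t hpd h1
  · refine key (-t) (by rw [neg_sq]; exact hpd) ?_
    rw [Int.cast_neg, sub_neg_eq_add]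
    exact h1

end

end Pool.Agent.H42.FD.Qd
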